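import Pool.Agent.T9h15.FC.Spec

/-! Project FC, piece (C): induced modules of modules with finite free resolutions. -/

set_option autoImplicit false

namespace Pool.Agent.T9h75.FC

open Pool.Agent.T9h15.FC

section

variable {R : Type} [Ring R] {G : Type} [Group G]

/-- induction for the group ring -/
theorem indA {P : MonoidAlgebra R G → Prop} (a : MonoidAlgebra R G) (h0 : P 0)
    (hadd : ∀ a b, P a → P b → P (a + b)) (hs : ∀ g r, P (MonoidAlgebra.single g r)) : P a := by
  have key : ∀ q : G →₀ R, P (MonoidAlgebra.ofCoeff q) := by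
    intro q
    induction q using Finsupp.induction_linear with
    | zero => exact h0
    | add f g hf hg => exact hadd _ _ hf hg
    | single g r => exact hs g r
  exact key a.coeff

/-- the function -/
def cf {M : Type} [AddCommGroup M] (y : Ind G M) : G →₀ M := y

/-- the element of a function -/
def fc {M : Type} [AddCommGroup M] (y : G →₀ M) : Ind G M := y

omit [Group G] in
theorem ext' {M : Type} [AddCommGroup M] {y z : Ind G M} (h : ∀ g, cf y g = cf z g) : y = z :=
  Finsupp.ext h

omit [Group G] in
theorem indI {M : Type} [AddCommGroup M] {P : Ind G M → Prop} (y : Ind G M) (h0 : P 0)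
    (hadd : ∀ a b, P a → P b → P (a + b)) (hs : ∀ g m, P (ind g m)) : P y := by
  have key : ∀ q : G →₀ M, P (q : Ind G M) := by
    intro q
    induction q using Finsupp.induction_linear with
    | zero => exact h0
    | add f g hf hg => exact hadd _ _ hf hg
    | single g r => exact hs g r
  exact key y

/-- linearity can be checked on the generators -/
noncomputable def mkLin {M X : Type} [AddCommGroup M] [Module R M] [AddCommGroup X]
    [Module (MonoidAlgebra R G) X] (φ : Ind G M →+ X)
    (h : ∀ (g h : G) (r : R) (m : M), φ (ind (g * h) (r • m)) =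
      (MonoidAlgebra.single g r : MonoidAlgebra R G) • φ (ind h m)) :
    Ind G M →ₗ[MonoidAlgebra R G] X where
  toFun := φ
  map_add' := φ.map_add
  map_smul' := by
    intro a y
    rw [RingHom.id_apply]
    induction a using indA with
    | h0 => rw [zero_smul, zero_smul, map_zero]
    | hadd a b ha hb => rw [add_smul, add_smul, map_add, ha, hb]
    | hs g r =>
      induction y using indI with
      | h0 => rw [smul_zero, map_zero, smul_zero]
      | hadd a b ha hb => rw [smul_add, map_add, map_add, smul_add, ha, hb]
      | hs h' m => rw [single_smul_ind, h]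

/-- the map induced by a linear map -/
noncomputable def indMap {M N : Type} [AddCommGroup M] [Module R M] [AddCommGroup N] [Module R N]
    (G : Type) [Group G] (f : M →ₗ[R] N) : Ind G M →ₗ[MonoidAlgebra R G] Ind G N :=
  mkLin (Finsupp.mapRange.addMonoidHom f.toAddMonoidHom : (G →₀ M) →+ (G →₀ N)) (by
    intro g h r m
    show Finsupp.mapRange f (map_zero f) (Finsupp.single (g * h) (r • m)) =
      (MonoidAlgebra.single g r : MonoidAlgebra R G) • (show Ind G N from
        Finsupp.mapRange f (map_zero f) (Finsupp.single h m))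
    rw [Finsupp.mapRange_single, Finsupp.mapRange_single]
    have := single_smul_ind g h r (f m)
    unfold ind at this
    rw [this, map_smul])

theorem indMap_apply {M N : Type} [AddCommGroup M] [Module R M] [AddCommGroup N] [Module R N]
    (f : M →ₗ[R] N) (y : Ind G M) (g : G) : cf (indMap G f y) g = f (cf y g) := rfl

theorem indMap_surj {M N : Type} [AddCommGroup M] [Module R M] [AddCommGroup N] [Module R N]
    {f : M →ₗ[R] N} (hf : Function.Surjective f) : Function.Surjective (indMap G f) :=
  Finsupp.mapRange_surjective f (map_zero f) hf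

theorem indMap_inj {M N : Type} [AddCommGroup M] [Module R M] [AddCommGroup N] [Module R N]
    {f : M →ₗ[R] N} (hf : Function.Injective f) : Function.Injective (indMap G f) :=
  Finsupp.mapRange_injective f (map_zero f) hf

/-- coefficients of a tuple -/
noncomputable def phi (R G : Type) [Ring R] [Group G] (k : ℕ) :
    Ind G (Fin k → R) →ₗ[MonoidAlgebra R G] (Fin k → MonoidAlgebra R G) :=
  mkLin (Finsupp.liftAddHom (fun g =>
    { toFun := fun m => fun i => (MonoidAlgebra.single g (m i) : MonoidAlgebra R G)
      map_zero' := by funext i; simp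
      map_add' := by intro a b; funext i; simp }) :
      (G →₀ (Fin k → R)) →+ (Fin k → MonoidAlgebra R G)) (by
    intro g h r m
    unfold ind
    erw [Finsupp.liftAddHom_apply_single, Finsupp.liftAddHom_apply_single]
    funext i
    simp [MonoidAlgebra.single_mul_single])

theorem phi_ind (k : ℕ) (g : G) (m : Fin k → R) : phi R G k (ind g m) =
    fun i => (MonoidAlgebra.single g (m i) : MonoidAlgebra R G) := by
  show (Finsupp.liftAddHom _ : (G →₀ (Fin k → R)) →+ (Fin k → MonoidAlgebra R G))
    (Finsupp.single g m) = _
  rw [Finsupp.liftAddHom_apply_single]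
  rfl

theorem phi_coeff (k : ℕ) (y : Ind G (Fin k → R)) (i : Fin k) (g : G) :
    (phi R G k y i).coeff g = cf y g i := by
  classical
  induction y using indI with
  | h0 => rw [map_zero]; rfl
  | hadd a b ha hb =>
    rw [map_add, Pi.add_apply, MonoidAlgebra.coeff_add, Finsupp.add_apply, ha, hb]
    rfl
  | hs h m =>
    rw [phi_ind]
    show (MonoidAlgebra.single h (m i)).coeff g = (Finsupp.single h m) g i
    rw [MonoidAlgebra.coeff_single, Finsupp.single_apply, Finsupp.single_apply]
    split_ifs <;> rfl

theorem phi_bij (k : ℕ) : Function.Bijective (phi R G k) := by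
  classical
  constructor
  · intro y z hyz
    refine ext' fun g => ?_
    funext i
    rw [← phi_coeff k y i g, hyz, phi_coeff]
  · intro x
    refine ⟨fc (∑ i, Finsupp.mapRange (Pi.single i) (Pi.single_zero i) (x i).coeff), ?_⟩
    funext i
    apply MonoidAlgebra.coeff_injective
    ext g
    rw [phi_coeff]
    show (∑ j, Finsupp.mapRange (Pi.single j) (Pi.single_zero j) (x j).coeff :
      G →₀ (Fin k → R)) g i = _
    rw [Finsupp.finsetSum_apply, Finset.sum_apply]
    simp [Pi.single_apply]

/-- the induced module of a free module -/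
noncomputable def iso0 (R G : Type) [Ring R] [Group G] (k : ℕ) :
    Ind G (Fin k → R) ≃ₗ[MonoidAlgebra R G] (Fin k → MonoidAlgebra R G) :=
  LinearEquiv.ofBijective (phi R G k) (phi_bij k)

end

/-- invariance under isomorphisms -/
theorem ffr_iso {A : Type} [Ring A] (n : ℕ) : ∀ {M N : Type} [AddCommGroup M] [AddCommGroup N]
    [Module A M] [Module A N], (M ≃ₗ[A] N) → FFR A n M → FFR A n N := by
  induction n with
  | zero =>
    intro M N _ _ _ _ e h
    obtain ⟨k, ⟨f⟩⟩ := h
    exact ⟨k, ⟨e.symm.trans f⟩⟩
  | succ n _ =>
    intro M N _ _ _ _ e h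
    obtain ⟨k, f, hf, h⟩ := h
    refine ⟨k, (e : M →ₗ[A] N) ∘ₗ f, e.surjective.comp hf, ?_⟩
    rw [LinearEquiv.ker_comp]
    exact h

theorem ffr_ind {R : Type} [Ring R] {G : Type} [Group G] (n : ℕ) : ∀ {M : Type} [AddCommGroup M]
    [Module R M], FFR R n M → FFR (MonoidAlgebra R G) n (Ind G M) := by
  induction n with
  | zero =>
    intro M _ _ h
    obtain ⟨k, ⟨e⟩⟩ := h
    have e1 : Ind G M ≃ₗ[MonoidAlgebra R G] Ind G (Fin k → R) :=
      LinearEquiv.ofBijective (indMap G (e : M →ₗ[R] (Fin k → R)))
        ⟨indMap_inj e.injective, indMap_surj e.surjective⟩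
    exact ⟨k, ⟨e1.trans (iso0 R G k)⟩⟩
  | succ n ih =>
    intro M _ _ h
    obtain ⟨k, f, hf, h⟩ := h
    set F : (Fin k → MonoidAlgebra R G) →ₗ[MonoidAlgebra R G] Ind G M :=
      (indMap G f) ∘ₗ ((iso0 R G k).symm : (Fin k → MonoidAlgebra R G) →ₗ[MonoidAlgebra R G]
        Ind G (Fin k → R)) with hF
    refine ⟨k, F, (indMap_surj hf).comp (iso0 R G k).symm.surjective, ?_⟩
    set E : Ind G (LinearMap.ker f) →ₗ[MonoidAlgebra R G] (Fin k → MonoidAlgebra R G) :=
      ((iso0 R G k : Ind G (Fin k → R) →ₗ[MonoidAlgebra R G] (Fin k → MonoidAlgebra R G))) ∘ₗ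
        (indMap G (LinearMap.ker f).subtype) with hE
    have hEi : Function.Injective E :=
      (iso0 R G k).injective.comp (indMap_inj (Submodule.subtype_injective _))
    have hr : LinearMap.range E = LinearMap.ker F := by
      ext y
      rw [LinearMap.mem_range, LinearMap.mem_ker]
      constructor
      · rintro ⟨z, rfl⟩
        rw [hF, hE]
        simp only [LinearMap.comp_apply, LinearEquiv.coe_coe, LinearEquiv.symm_apply_apply]
        refine ext' fun g => ?_
        rw [indMap_apply, indMap_apply]
        exact (cf z g).2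
      · intro hy
        set y' : Ind G (Fin k → R) := (iso0 R G k).symm y with hy'
        have h1 : ∀ g, cf y' g ∈ LinearMap.ker f := fun g =>
          congrArg (fun w : Ind G M => cf w g) hy
        refine ⟨fc (Finsupp.onFinset (cf y').support (fun g => (⟨cf y' g, h1 g⟩ : LinearMap.ker f))
          (fun g hg => by
            rw [Finsupp.mem_support_iff]
            intro h2
            exact hg (Subtype.ext h2))), ?_⟩
        rw [hE, LinearMap.comp_apply, LinearEquiv.coe_coe]
        refine (iso0 R G k).symm.injective ?_
        rw [LinearEquiv.symm_apply_apply, ← hy']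
        refine ext' fun g => ?_
        rfl
    exact ffr_iso n ((LinearEquiv.ofInjective E hEi).trans (LinearEquiv.ofEq _ _ hr)) (ih h)

theorem indFFR : S_Ind := by
  intro R _ G _ M _ _ h
  obtain ⟨n, h⟩ := h
  exact ⟨n, ffr_ind n h⟩

end Pool.Agent.T9h75.FC
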