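import Pool.Agent.T9h75.FC.IndR
import Pool.Agent.T9h69.FC.Maps

/-! Project FC, piece (D2): injectivity of the map `d`. -/

set_option autoImplicit false

namespace Pool.Agent.T9h75.FC

open Pool.Agent.T9h15.FC

/-- a letter on the left -/
theorem norm_letter_mul {r : ℕ} (a : Fin r × Bool) (h : FreeGroup (Fin r)) :
    ((h.toWord.head? = some (a.1, !a.2)) ∧ (FreeGroup.mk [a] * h).norm + 1 = h.norm) ∨
    ((h.toWord.head? ≠ some (a.1, !a.2)) ∧ (FreeGroup.mk [a] * h).norm = h.norm + 1) := by
  have h1 : (FreeGroup.mk [a] * h).toWord = FreeGroup.reduce (a :: h.toWord) := by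
    conv_lhs => rw [← FreeGroup.mk_toWord (x := h)]
    rw [FreeGroup.mul_mk, FreeGroup.toWord_mk]
    rfl
  have h2 : FreeGroup.reduce (h.toWord) = h.toWord := FreeGroup.reduce_toWord h
  unfold FreeGroup.norm
  rw [h1, FreeGroup.reduce.cons, h2]
  rcases h.toWord with _ | ⟨b, l⟩
  · right
    simp
  · by_cases hb : a.1 = b.1 ∧ a.2 = !b.2
    · left
      dsimp only
      rw [if_pos hb]
      refine ⟨?_, by simp⟩
      rw [List.head?_cons]
      obtain ⟨b1, b2⟩ := b
      obtain ⟨h3, h4⟩ := hb
      dsimp only at h3 h4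
      rw [h3, h4, Bool.not_not]
    · right
      dsimp only
      rw [if_neg hb]
      refine ⟨fun h3 => hb ?_, by simp⟩
      rw [List.head?_cons, Option.some.injEq] at h3
      rw [h3]
      simp

/-- a letter on the right -/
theorem norm_mul_letter {r : ℕ} (h : FreeGroup (Fin r)) (a : Fin r × Bool) :
    ((h⁻¹.toWord.head? = some a) ∧ (h * FreeGroup.mk [a]).norm + 1 = h.norm) ∨
    ((h⁻¹.toWord.head? ≠ some a) ∧ (h * FreeGroup.mk [a]).norm = h.norm + 1) := by
  have h1 : (h * FreeGroup.mk [a]).norm = (FreeGroup.mk [(a.1, !a.2)] * h⁻¹).norm := by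
    rw [← FreeGroup.norm_inv_eq, mul_inv_rev, FreeGroup.inv_mk]
    rfl
  have h2 := norm_letter_mul (a.1, !a.2) h⁻¹
  rw [h1, ← FreeGroup.norm_inv_eq (x := h)]
  dsimp only at h2
  rw [Bool.not_not] at h2
  exact h2

theorem of_eq {r : ℕ} (s : Fin r) : FreeGroup.of s = FreeGroup.mk [(s, true)] := rfl

theorem of_inv {r : ℕ} (s : Fin r) : (FreeGroup.of s)⁻¹ = FreeGroup.mk [(s, false)] := by
  rw [of_eq, FreeGroup.inv_mk]
  rfl

theorem cf_sub {G M : Type} [AddCommGroup M] (a b : Ind G M) (h : G) :
    cf (a - b) h = cf a h - cf b h := rfl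

theorem cf_ind {G M : Type} [DecidableEq G] [AddCommGroup M] (g h : G) (m : M) :
    cf (ind g m) h = if g = h then m else 0 := by
  have : cf (ind g m) h = (Finsupp.single g m : G →₀ M) h := rfl
  rw [this, Finsupp.single_apply]

/-- the abstract form: maps of the shape of `d` are injective -/
theorem inj_abs {r : ℕ} {X : Fin r → Type} [∀ s, AddCommGroup (X s)] {Y : Type} [AddCommGroup Y]
    (sg ic : ∀ s, X s →+ Y) (hsg : ∀ s, Function.Injective (sg s))
    (hic : ∀ s, Function.Injective (ic s))
    (D : Ind (FreeGroup (Fin r)) ((s : Fin r) → X s) →+ Ind (FreeGroup (Fin r)) Y)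
    (hD : ∀ g x, D (ind g x) =
      ∑ s, (ind (g * (FreeGroup.of s)⁻¹) (sg s (x s)) - ind g (ic s (x s)))) :
    Function.Injective D := by
  classical
  -- the coefficients
  have hc : ∀ y h, cf (D y) h =
      ∑ s, (sg s (cf y (h * FreeGroup.of s) s) - ic s (cf y h s)) := by
    intro y h
    induction y using indI with
    | h0 =>
      rw [map_zero]
      have e : ∀ g, cf (0 : Ind (FreeGroup (Fin r)) ((s : Fin r) → X s)) g = 0 := fun _ => rfl
      simp only [e, Pi.zero_apply, map_zero, sub_zero, Finset.sum_const_zero]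
      rfl
    | hadd a b ha hb =>
      have e : ∀ g, cf (a + b) g = cf a g + cf b g := fun _ => rfl
      have e2 : cf (D (a + b)) h = cf (D a) h + cf (D b) h := by rw [map_add]; rfl
      rw [e2, ha, hb, ← Finset.sum_add_distrib]
      refine Finset.sum_congr rfl fun s _ => ?_
      rw [e, e, Pi.add_apply, Pi.add_apply, map_add, map_add]
      abel
    | hs g x =>
      rw [hD]
      have e : ∀ (S : Finset (Fin r)) (f : Fin r → Ind (FreeGroup (Fin r)) Y),
          cf (∑ s ∈ S, f s) h = ∑ s ∈ S, cf (f s) h := by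
        intro S f
        induction S using Finset.induction_on with
        | empty => rfl
        | insert a S ha ih =>
          rw [Finset.sum_insert ha, Finset.sum_insert ha, ← ih]
          rfl
      rw [e]
      refine Finset.sum_congr rfl fun s _ => ?_
      have e1 : cf (ind (g * (FreeGroup.of s)⁻¹) (sg s (x s)) - ind g (ic s (x s))) h =
          (if g * (FreeGroup.of s)⁻¹ = h then sg s (x s) else 0) -
            (if g = h then ic s (x s) else 0) := by
        rw [cf_sub, cf_ind, cf_ind]
      have e2 : ∀ h', cf (ind g x) h' = if g = h' then x else 0 := by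
        intro h'
        rw [cf_ind]
      rw [e1, e2, e2]
      congr 1
      · by_cases h1 : g = h * FreeGroup.of s
        · rw [if_pos h1, if_pos (by rw [h1, mul_inv_cancel_right])]
        · rw [if_neg h1, if_neg (fun h2 => h1 (by rw [← h2, inv_mul_cancel_right]))]
          rw [Pi.zero_apply, map_zero]
      · by_cases h1 : g = h
        · rw [if_pos h1, if_pos h1]
        · rw [if_neg h1, if_neg h1, Pi.zero_apply, map_zero]
  rw [injective_iff_map_eq_zero]
  intro y hy
  by_contra hne
  set E : Finset (FreeGroup (Fin r) × Fin r) :=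
    ((cf y).support ×ˢ Finset.univ).filter (fun p => cf y p.1 p.2 ≠ 0) with hE
  have hmem : ∀ g s, cf y g s ≠ 0 → (g, s) ∈ E := by
    intro g s h
    rw [hE, Finset.mem_filter, Finset.mem_product]
    refine ⟨⟨?_, Finset.mem_univ _⟩, h⟩
    rw [Finsupp.mem_support_iff]
    intro h2
    exact h (by rw [h2]; rfl)
  have hEne : E.Nonempty := by
    by_contra h
    rw [Finset.not_nonempty_iff_eq_empty] at h
    apply hne
    refine ext' fun g => ?_
    funext s
    by_contra h2
    have := hmem g s h2
    rw [h] at this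
    exact absurd this (Finset.notMem_empty _)
  obtain ⟨⟨g, s⟩, hgs, hmax⟩ := Finset.exists_max_image E
    (fun p => max p.1.norm (p.1 * (FreeGroup.of p.2)⁻¹).norm) hEne
  have hgs' : cf y g s ≠ 0 := (Finset.mem_filter.mp hgs).2
  have hbig : ∀ g' s', max g.norm (g * (FreeGroup.of s)⁻¹).norm <
      max g'.norm (g' * (FreeGroup.of s')⁻¹).norm → cf y g' s' = 0 := by
    intro g' s' h
    by_contra h2
    exact absurd (hmax _ (hmem g' s' h2)) (not_le.mpr h)
  have hz : ∀ h, ∑ s, (sg s (cf y (h * FreeGroup.of s) s) - ic s (cf y h s)) = 0 := by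
    intro h
    rw [← hc, hy]
    rfl
  have hA := norm_mul_letter g (s, false)
  rw [← of_inv] at hA
  rcases hA with ⟨hhd, hn⟩ | ⟨hhd, hn⟩
  · -- the end `g` is longer
    have hz1 := hz g
    have hL : max g.norm (g * (FreeGroup.of s)⁻¹).norm = g.norm := max_eq_left (by omega)
    rw [hL] at hbig
    have k1 : ∀ s', cf y (g * FreeGroup.of s') s' = 0 := by
      intro s'
      have h1 := norm_mul_letter g (s', true)
      rw [← of_eq] at h1
      rcases h1 with ⟨h1, _⟩ | ⟨_, h1⟩
      · rw [hhd] at h1
        simp at h1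
      · apply hbig
        rw [h1]
        exact lt_of_lt_of_le (Nat.lt_succ_self _) (le_max_left _ _)
    have k2 : ∀ s', s' ≠ s → cf y g s' = 0 := by
      intro s' hs'
      have h1 := norm_mul_letter g (s', false)
      rw [← of_inv] at h1
      rcases h1 with ⟨h1, _⟩ | ⟨_, h1⟩
      · rw [hhd] at h1
        simp only [Option.some.injEq, Prod.mk.injEq, and_true] at h1
        exact absurd h1.symm hs'
      · apply hbig
        rw [h1]
        exact lt_of_lt_of_le (Nat.lt_succ_self _) (le_max_right _ _)
    rw [Finset.sum_eq_single s (fun s' _ hs' => by rw [k1, k2 s' hs', map_zero, map_zero, sub_zero])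
      (fun h => absurd (Finset.mem_univ _) h), k1, map_zero, zero_sub, neg_eq_zero] at hz1
    exact hgs' (hic s (by rw [hz1, map_zero]))
  · -- the end `g s⁻¹` is longer
    have hz1 := hz (g * (FreeGroup.of s)⁻¹)
    have hL : max g.norm (g * (FreeGroup.of s)⁻¹).norm = (g * (FreeGroup.of s)⁻¹).norm :=
      max_eq_right (by omega)
    rw [hL] at hbig
    set h := g * (FreeGroup.of s)⁻¹ with hh
    have hg : h * FreeGroup.of s = g := by rw [hh, inv_mul_cancel_right]
    have hhd' : h⁻¹.toWord.head? = some (s, true) := by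
      have h1 := norm_mul_letter h (s, true)
      rw [← of_eq, hg] at h1
      rcases h1 with ⟨h1, _⟩ | ⟨_, h1⟩
      · exact h1
      · omega
    have k1 : ∀ s', s' ≠ s → cf y (h * FreeGroup.of s') s' = 0 := by
      intro s' hs'
      have h1 := norm_mul_letter h (s', true)
      rw [← of_eq] at h1
      rcases h1 with ⟨h1, _⟩ | ⟨_, h1⟩
      · rw [hhd'] at h1
        simp only [Option.some.injEq, Prod.mk.injEq, and_true] at h1
        exact absurd h1.symm hs'
      · apply hbig
        rw [h1]
        exact lt_of_lt_of_le (Nat.lt_succ_self _) (le_max_left _ _)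
    have k2 : ∀ s', cf y h s' = 0 := by
      intro s'
      have h1 := norm_mul_letter h (s', false)
      rw [← of_inv] at h1
      rcases h1 with ⟨h1, _⟩ | ⟨_, h1⟩
      · rw [hhd'] at h1
        simp at h1
      · apply hbig
        rw [h1]
        exact lt_of_lt_of_le (Nat.lt_succ_self _) (le_max_right _ _)
    rw [Finset.sum_eq_single s (fun s' _ hs' => by rw [k1 s' hs', k2, map_zero, map_zero, sub_zero])
      (fun h => absurd (Finset.mem_univ _) h), hg, k2, map_zero, sub_zero] at hz1
    exact hgs' (hsg s (by rw [hz1, map_zero]))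

open Pool.Agent.T9h69.FC in
/-- **(D2)** -/
theorem d_inj {R : Type} [Ring R] {r l : ℕ} (N : Submodule (RF R r) (Fin l → RF R r)) (n : ℕ) :
    Function.Injective (Pool.Agent.T9h69.FC.d N n) := by
  refine inj_abs (mulS N n) (incS N n) (fun s x y hxy => ?_) (fun s x y hxy => ?_)
    (Pool.Agent.T9h69.FC.d N n).toAddMonoidHom (d_ind N n)
  · have h1 : Pool.Agent.T9h69.FC.sg R (FreeGroup.of s) • x.1 =
        Pool.Agent.T9h69.FC.sg R (FreeGroup.of s) • y.1 := by
      rw [← mulS_val, ← mulS_val, hxy]
    have h2 := congrArg (fun v => Pool.Agent.T9h69.FC.sg R (FreeGroup.of s)⁻¹ • v) h1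
    rw [smul_smul, smul_smul, sg_mul, inv_mul_cancel, sg_one, one_smul, one_smul] at h2
    exact Subtype.ext h2
  · have h1 : x.1 = y.1 := by
      rw [← incS_val, ← incS_val, hxy]
    exact Subtype.ext h1

end Pool.Agent.T9h75.FC
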